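import Pool.Agent.H33.NFA.A
import Pool.Agent.H6.HYP.SQI

/-!
# NFA, row LOCA: the local lattice at every prime
-/

set_option autoImplicit false

namespace Pool.NFA.LOCA51

open Polynomial Matrix Pool.HYP Pool.AVS

theorem gr_map {K L : Type} [Field K] [Field L] (ι : K →+* L) (k n : ℕ) {f : K[X]}
    (hf : f.Monic) (h : K[X]) : (gr k n f h).map ι = gr k n (f.map ι) (h.map ι) := by
  ext i j
  show ι (tau f (X ^ ((i : ℕ) + (j : ℕ) + k) * h)) =
    tau (f.map ι) (X ^ ((i : ℕ) + (j : ℕ) + k) * h.map ι)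
  have h1 : (X ^ ((i : ℕ) + (j : ℕ) + k) * h.map ι : L[X]) =
      (X ^ ((i : ℕ) + (j : ℕ) + k) * h).map ι := by
    rw [Polynomial.map_mul, Polynomial.map_pow, Polynomial.map_X]
  rw [h1]
  unfold tau
  rw [← Polynomial.map_modByMonic ι hf, coeff_map, hf.natDegree_map]

end Pool.NFA.LOCA51

namespace Pool.NFA

open Polynomial Matrix NumberField IsDedekindDomain Pool.HYP Pool.TOW Pool.AVS Pool.T1 Pool.NF

theorem loca (hI : LPIStmt) (hU : LPUStmt) (hD : DSCStmt) (hC : CMP2Stmt) : LOCAStmt := by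
  intro K _ _ f p hf hn hpf hE P
  obtain ⟨L, _, O, ι, hcpl, hmem⟩ := hC K P
  obtain ⟨x, y, s, hy, hy0, hs⟩ := hE L O ι hcpl
  have hfK : (fk K f).Monic := hf.map _
  have hfL : ((fk K f).map ι).Monic := hfK.map ι
  have hnL : ((fk K f).map ι).natDegree = 3 := by
    rw [hfK.natDegree_map, hf.natDegree_map, hn]
  have hco : ∀ i, ((fk K f).map ι).coeff i ∈ O := by
    intro i
    rw [coeff_map, hmem]
    refine ⟨1, ?_, f.coeff i, ?_⟩
    · intro h1
      exact P.isPrime.ne_top ((Ideal.eq_top_iff_one _).2 h1)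
    · rw [map_one, one_mul, coeff_map]
  -- the class over the completion
  have hev : ((fk K f).map ι).eval x ≠ 0 := by
    rw [← hy]
    exact pow_ne_zero 2 hy0
  have hcx : IsCoprime (C x - X : L[X]) ((fk K f).map ι) := by
    have h1 : IsCoprime (X - C x : L[X]) ((fk K f).map ι) := by
      rw [(irreducible_X_sub_C x).coprime_iff_not_dvd, dvd_iff_isRoot]
      exact hev
    have h2 := h1.neg_left
    rwa [neg_sub] at h2
  have hsc : IsCoprime s ((fk K f).map ι) := by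
    obtain ⟨q, hq⟩ := hs
    obtain ⟨a, b, hab⟩ := hcx
    exact ⟨a * (p.map ι * s), b + a * q, by linear_combination hab - a * hq⟩
  obtain ⟨b, hb0, hb1⟩ : ∃ b : Matrix (Fin 3) (Fin 3) L,
      GIn (O : Set L) (bᵀ * gr 0 3 ((fk K f).map ι) (C x - X) * b) ∧
      MIn (O : Set L) (bᵀ * gr 1 3 ((fk K f).map ι) (C x - X) * b) := by
    by_cases hx : x ∈ O
    · exact hI L O _ x y hfL hnL hco hx hy hy0
    · exact hU L O _ x y hfL hnL hco hx hy hy0
  obtain ⟨a, -, ha0, ha1⟩ := sqi L 3 _ (p.map ι) (C x - X) s hfL hnL hsc hs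
  refine hD K (RP K P) L O ι hcpl hmem 3 (gr 0 3 (fk K f) p) (gr 1 3 (fk K f) p) (a * b) ?_ ?_
  · have e1 : (a * b)ᵀ * (gr 0 3 (fk K f) p).map ι * (a * b) =
        bᵀ * gr 0 3 ((fk K f).map ι) (C x - X) * b := by
      rw [LOCA51.gr_map ι 0 3 hfK p, ha0, Matrix.transpose_mul]
      simp only [Matrix.mul_assoc]
    rw [e1]
    exact hb0
  · have e1 : (a * b)ᵀ * (gr 1 3 (fk K f) p).map ι * (a * b) =
        bᵀ * gr 1 3 ((fk K f).map ι) (C x - X) * b := by
      rw [LOCA51.gr_map ι 1 3 hfK p, ha1, Matrix.transpose_mul]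
      simp only [Matrix.mul_assoc]
    rw [e1]
    exact hb1

end Pool.NFA
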